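import Pool.Agent.Run7.h378.IfaceF

/-!
# Transport lemmas for `acl` and `IsIntegral` along field homomorphisms
(helper for S01535, pieces F15 etc.)
-/

noncomputable section

namespace Pool.Agent.Run7.h639.MP57

open Pool.Agent.Run7.h378 Finset

/-- the isomorphism of a subfield with its image -/
def mapEquiv {K L : Type} [Field K] [Field L] (f : K →+* L) (F : Subfield K) :
    F →+* (F.map f) :=
  (f.comp F.subtype).codRestrict (F.map f).toSubring (fun x => ⟨x.1, x.2, rfl⟩)

theorem mapEquiv_apply {K L : Type} [Field K] [Field L] (f : K →+* L) (F : Subfield K) (x : F) :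
    ((mapEquiv f F x : F.map f) : L) = f x := rfl

theorem mapEquiv_surj {K L : Type} [Field K] [Field L] (f : K →+* L) (F : Subfield K) :
    Function.Surjective (mapEquiv f F) := by
  rintro ⟨y, x, hx, rfl⟩
  exact ⟨⟨x, hx⟩, rfl⟩

/-- transport of `acl` along a field homomorphism -/
theorem acl_map_iff {K L : Type} [Field K] [Field L] (f : K →+* L) (S : Set K) (y : K) :
    f y ∈ acl (f '' S) ↔ y ∈ acl S := by
  have key : ∀ (F : Subfield K), IsAlgebraic (F.map f) (f y) ↔ IsAlgebraic F y := by
    intro F
    constructor
    · intro h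
      exact h.of_ringHom_of_comp_eq (mapEquiv f F) f (mapEquiv_surj f F) f.injective rfl
    · intro h
      exact h.ringHom_of_comp_eq (mapEquiv f F) f (mapEquiv f F).injective rfl
  show IsAlgebraic (Subfield.closure (f '' S)) (f y) ↔ IsAlgebraic (Subfield.closure S) y
  rw [← RingHom.map_field_closure]
  exact key _

/-- restriction of a ring hom to a subring and its image -/
def mapEquivR {K L : Type} [Field K] [Field L] (f : K →+* L) (F : Subring K) :
    F →+* (F.map f) :=
  (f.comp F.subtype).codRestrict (F.map f) (fun x => ⟨x.1, x.2, rfl⟩)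

theorem mapEquivR_surj {K L : Type} [Field K] [Field L] (f : K →+* L) (F : Subring K) :
    Function.Surjective (mapEquivR f F) := by
  rintro ⟨y, x, hx, rfl⟩
  exact ⟨⟨x, hx⟩, rfl⟩

/-- transport of integrality along a field homomorphism -/
theorem isIntegral_map_iff {K L : Type} [Field K] [Field L] (f : K →+* L) (S : Set K) (y : K) :
    IsIntegral (Subring.closure (f '' S)) (f y) ↔ IsIntegral (Subring.closure S) y := by
  have key : ∀ (F : Subring K), IsIntegral (F.map f) (f y) ↔ IsIntegral F y := by
    intro F
    constructor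
    · rintro ⟨p, hp, hpy⟩
      obtain ⟨q, hq, -, hqm⟩ := Polynomial.lifts_and_degree_eq_and_monic
        (f := mapEquivR f F) (p := p)
        (Polynomial.lifts_iff_coeff_lifts p |>.2 fun n => by
          obtain ⟨x, hx⟩ := mapEquivR_surj f F (p.coeff n)
          exact ⟨x, hx⟩) hp
      refine ⟨q, hqm, ?_⟩
      apply f.injective
      rw [map_zero, Polynomial.hom_eval₂]
      rw [← hq, Polynomial.eval₂_map] at hpy
      exact hpy
    · intro h
      exact h.map_of_comp_eq (mapEquivR f F) f rfl
  rw [← RingHom.map_closure]
  exact key _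

end Pool.Agent.Run7.h639.MP57
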