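import Pool.Agent.Run7.h639.MP57.Base

/-!
# Piece F15 (`S_data`) of MP_5766af_al / S01535: assembly of the field level
-/

noncomputable section

namespace Pool.Agent.Run7.h639.MP57

open Pool.Agent.Run7.h378 Finset

variable {E : Type} [Field E] [Algebra ℂ E]

/-- an infinite tower of steps -/
structure Tower (R : Res E) (eps : LaurentSeries E ≃+* LaurentSeries E) (P₀ : Set ℂ) where
  x : ∀ l, St R eps P₀ l
  e : ℕ → LaurentSeries E
  α : ℕ → LaurentSeries E
  step : ∀ l, Step (x l) (e l) (x (l + 1)) (α l)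
  e_mem : ∀ l, e l ∈ Mf R eps (x l).P
  all : ∀ l v, v ∈ Mf R eps (x l).P → ∀ l₀, ∃ l', l₀ ≤ l' ∧ e l' = v

/-- facts bundled -/
structure Ctx (R : Res E) (eps : LaurentSeries E ≃+* LaurentSeries E) (P₀ : Set ℂ) : Prop where
  AF : AclFacts
  KF : KsFacts E R
  he : IsEps R eps
  MF : MfFacts E R eps
  SF : ∀ (l : ℕ) (S : St R eps P₀ l), StFacts S

variable {R : Res E} {eps : LaurentSeries E ≃+* LaurentSeries E} {P₀ : Set ℂ}

namespace Tower

variable (T : Tower R eps P₀) (C : Ctx R eps P₀)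

include C in
theorem mono {l m : ℕ} (h : l ≤ m) : Mf R eps (T.x l).P ⊆ Mf R eps (T.x m).P := by
  induction m, h using Nat.le_induction with
  | base => exact subset_rfl
  | succ m _ ih => exact ih.trans (C.MF.mono _ _ (T.step m).P_sub)

theorem g_iter (l k : ℕ) (h : LaurentSeries E) :
    ((T.x (l + k)).g)^[2 ^ k] h = (T.x l).g h := by
  induction k generalizing h with
  | zero => simp
  | succ k ih =>
    have h2 : ((T.x (l + (k + 1))).g)^[2] = (T.x (l + k)).g := by
      funext y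
      exact (T.step (l + k)).sq y
    rw [pow_succ', Function.iterate_mul, h2]
    exact ih h

theorem g_iter' {l m : ℕ} (hlm : l ≤ m) (h : LaurentSeries E) :
    ((T.x m).g)^[2 ^ (m - l)] h = (T.x l).g h := by
  obtain ⟨k, rfl⟩ := Nat.exists_eq_add_of_le hlm
  rw [Nat.add_sub_cancel_left]
  exact T.g_iter l k h

include C in
theorem iter_mem (l n : ℕ) (h : LaurentSeries E) (hh : h ∈ Mf R eps (T.x l).P) :
    ((T.x l).g)^[n] h ∈ Mf R eps (T.x l).P := by
  induction n with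
  | zero => exact hh
  | succ n ih =>
    rw [Function.iterate_succ_apply']
    exact (C.SF l (T.x l)).g_Mf _ ih

include C in
/-- for `l ≤ m` the map `g l` preserves `Mf (P m)` -/
theorem g_mem_of_le {l m : ℕ} (hlm : l ≤ m) (h : LaurentSeries E)
    (hh : h ∈ Mf R eps (T.x m).P) : (T.x l).g h ∈ Mf R eps (T.x m).P := by
  rw [← T.g_iter' hlm h]
  exact T.iter_mem C m _ h hh

/-- the field `K` -/
def K : Subfield (LaurentSeries E) where
  carrier := {h | ∃ l, h ∈ Mf R eps (T.x l).P}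
  mul_mem' := by
    rintro a b ⟨l, ha⟩ ⟨m, hb⟩
    refine ⟨max l m, ?_⟩
    obtain ⟨F, hF⟩ := C.MF.field (T.x (max l m)).P
    have ha' := T.mono C (le_max_left l m) ha
    have hb' := T.mono C (le_max_right l m) hb
    rw [← hF] at ha' hb' ⊢
    exact F.mul_mem ha' hb'
  one_mem' := by
    refine ⟨0, ?_⟩
    obtain ⟨F, hF⟩ := C.MF.field (T.x 0).P
    rw [← hF]
    exact F.one_mem
  add_mem' := by
    rintro a b ⟨l, ha⟩ ⟨m, hb⟩
    refine ⟨max l m, ?_⟩
    obtain ⟨F, hF⟩ := C.MF.field (T.x (max l m)).P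
    have ha' := T.mono C (le_max_left l m) ha
    have hb' := T.mono C (le_max_right l m) hb
    rw [← hF] at ha' hb' ⊢
    exact F.add_mem ha' hb'
  zero_mem' := by
    refine ⟨0, ?_⟩
    obtain ⟨F, hF⟩ := C.MF.field (T.x 0).P
    rw [← hF]
    exact F.zero_mem
  neg_mem' := by
    rintro a ⟨l, ha⟩
    refine ⟨l, ?_⟩
    obtain ⟨F, hF⟩ := C.MF.field (T.x l).P
    rw [← hF] at ha ⊢
    exact F.neg_mem ha
  inv_mem' := by
    rintro a ⟨l, ha⟩
    refine ⟨l, ?_⟩
    obtain ⟨F, hF⟩ := C.MF.field (T.x l).P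
    rw [← hF] at ha ⊢
    exact F.inv_mem ha

theorem mem_K (h : LaurentSeries E) : h ∈ T.K C ↔ ∃ l, h ∈ Mf R eps (T.x l).P := Iff.rfl

theorem g_mem_K (l : ℕ) (h : LaurentSeries E) (hh : h ∈ T.K C) : (T.x l).g h ∈ T.K C := by
  obtain ⟨m, hm⟩ := hh
  exact ⟨max l m, T.g_mem_of_le C (le_max_left l m) h (T.mono C (le_max_right l m) hm)⟩

theorem iter_mem_K (l n : ℕ) (h : LaurentSeries E) (hh : h ∈ T.K C) :
    ((T.x l).g)^[n] h ∈ T.K C := by
  induction n with
  | zero => exact hh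
  | succ n ih =>
    rw [Function.iterate_succ_apply']
    exact T.g_mem_K C l _ ih

theorem symm_eq (l : ℕ) (h : LaurentSeries E) :
    (T.x l).g.symm h = ((T.x l).g)^[2 ^ l - 1] h := by
  rw [RingEquiv.symm_apply_eq]
  have h1 := (T.x l).ord h
  have h2 : 2 ^ l = (2 ^ l - 1) + 1 := by
    have : 0 < 2 ^ l := by positivity
    omega
  rw [h2, Function.iterate_succ_apply'] at h1
  exact h1.symm

theorem symm_mem_K (l : ℕ) (h : LaurentSeries E) (hh : h ∈ T.K C) :
    (T.x l).g.symm h ∈ T.K C := by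
  rw [T.symm_eq l h]
  exact T.iter_mem_K C l _ h hh

/-- the automorphisms of `K` -/
def gK (l : ℕ) : (T.K C) ≃+* (T.K C) where
  toFun k := ⟨(T.x l).g k, T.g_mem_K C l k k.2⟩
  invFun k := ⟨(T.x l).g.symm k, T.symm_mem_K C l k k.2⟩
  left_inv k := by
    apply Subtype.ext
    exact (T.x l).g.symm_apply_apply _
  right_inv k := by
    apply Subtype.ext
    exact (T.x l).g.apply_symm_apply _
  map_mul' a b := by
    apply Subtype.ext
    exact map_mul (T.x l).g _ _
  map_add' a b := by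
    apply Subtype.ext
    exact map_add (T.x l).g _ _

@[simp] theorem coe_gK (l : ℕ) (k : T.K C) : ((T.gK C l k : T.K C) : LaurentSeries E) =
    (T.x l).g k := rfl

theorem coe_gK_iter (l n : ℕ) (k : T.K C) :
    ((((T.gK C l)^[n] k : T.K C)) : LaurentSeries E) = ((T.x l).g)^[n] k := by
  induction n with
  | zero => rfl
  | succ n ih => rw [Function.iterate_succ_apply', Function.iterate_succ_apply', coe_gK, ih]

/-- the sequence `a` -/
def aK (l : ℕ) : T.K C := ⟨T.α l, l + 1, (T.step l).α_mem⟩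

/-- the sequence `c` -/
def cK (l : ℕ) : T.K C := ⟨(T.x l).c, l, (T.x l).c_mem⟩

/-- the subfields `M l` of `K` -/
def MK (l : ℕ) : Subfield (T.K C) :=
  ((C.MF.field (T.x l).P).choose).comap (T.K C).subtype

theorem mem_MK (l : ℕ) (k : T.K C) :
    k ∈ T.MK C l ↔ (k : LaurentSeries E) ∈ Mf R eps (T.x l).P := by
  have h := (C.MF.field (T.x l).P).choose_spec
  rw [← h]
  rfl

theorem image_MK (l : ℕ) : (T.K C).subtype '' (T.MK C l : Set (T.K C)) =
    Mf R eps (T.x l).P := by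
  ext h
  constructor
  · rintro ⟨k, hk, rfl⟩
    exact (T.mem_MK C l k).1 hk
  · intro hh
    exact ⟨⟨h, l, hh⟩, (T.mem_MK C l _).2 hh, rfl⟩

/-- the fixed field is `K ∩ Ks` -/
theorem mem_fix (k : T.K C) : k ∈ fix (T.gK C) ↔ (k : LaurentSeries E) ∈ Ks := by
  constructor
  · intro hk
    obtain ⟨l, hl⟩ := k.2
    by_contra hn
    have h1 := (T.step l).free k hl hn
    have h2 : (T.x (l + 1)).g k = k := congrArg Subtype.val (hk (l + 1))
    rw [h2] at h1
    exact h1 (C.AF.sub _ _ hl)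
  · intro hk l
    apply Subtype.ext
    exact C.KF.fixed _ _ (T.x l).adm _ hk

instance charZeroK : CharZero (T.K C) := by
  have : CharZero E := charZero_of_injective_algebraMap (algebraMap ℂ E).injective
  have : CharZero (LaurentSeries E) :=
    charZero_of_injective_ringHom (f := eH (E := E)) (eH (E := E)).injective
  exact charZero_of_injective_ringHom (f := algebraMap ℚ (T.K C)) (algebraMap ℚ (T.K C)).injective

/-- the valuation of `K` -/
def vK : AddValuation (T.K C) (WithTop ℤ) := (vH (E := E)).comap (T.K C).subtype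

theorem vK_apply (k : T.K C) : T.vK C k = vH (k : LaurentSeries E) := rfl

/-- the core -/
def core : Core (T.K C) where
  v := T.vK C
  g := T.gK C
  g_zero k := by
    apply Subtype.ext
    have h := (T.x 0).ord k
    simpa using h
  g_sq l k := by
    apply Subtype.ext
    exact (T.step l).sq k
  v_g l k := (T.x l).adm.map_v k
  a := T.aK C
  c := T.cK C
  v_a l := (T.step l).v_α
  v_c := (T.x 0).v_c
  c_succ l := by
    apply Subtype.ext
    have h1 : ((T.cK C (l + 1) : T.K C) : LaurentSeries E) = (T.x (l + 1)).c := rfl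
    rw [h1, (T.step l).c_eq]
    have h2 : (((∏ i ∈ range (2 ^ l), (T.gK C l)^[i] (T.aK C l)) * T.cK C l : T.K C) :
        LaurentSeries E) = (∏ i ∈ range (2 ^ l), ((T.x l).g)^[i] (T.α l)) * (T.x l).c := by
      rw [Subfield.coe_mul]
      congr 1
      rw [show (((∏ i ∈ range (2 ^ l), (T.gK C l)^[i] (T.aK C l)) : T.K C) : LaurentSeries E)
        = (T.K C).subtype (∏ i ∈ range (2 ^ l), (T.gK C l)^[i] (T.aK C l)) from rfl, map_prod]
      refine Finset.prod_congr rfl fun i _ => ?_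
      exact T.coe_gK_iter C l i (T.aK C l)
    rw [h2]
    rfl
  g_c l := by
    apply Subtype.ext
    exact (T.x l).g_c

theorem exists_M : ∃ m ∈ T.MK C 0, m ∉ fix (T.gK C) := by
  refine ⟨⟨eH R.x, 0, C.MF.x_mem _⟩, (T.mem_MK C 0 _).2 (C.MF.x_mem _), ?_⟩
  rw [T.mem_fix C]
  exact C.KF.x_not_mem

theorem acl_F (y : T.K C) (hy : y ∈ acl (fix (T.gK C) : Set (T.K C))) : y ∈ fix (T.gK C) := by
  rw [← acl_map_iff (T.K C).subtype] at hy
  rw [T.mem_fix C]
  refine C.KF.alg_closed _ (C.AF.mono _ _ _ ?_ hy)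
  rintro _ ⟨k, hk, rfl⟩
  exact (T.mem_fix C k).1 hk

theorem image_fix_inter (l : ℕ) : (T.K C).subtype ''
    ((fix (T.gK C) : Set (T.K C)) ∩ (T.MK C l : Set (T.K C))) = Mf R eps (T.x l).P ∩ Ks := by
  ext h
  constructor
  · rintro ⟨k, ⟨hk, hk'⟩, rfl⟩
    exact ⟨(T.mem_MK C l k).1 hk', (T.mem_fix C k).1 hk⟩
  · rintro ⟨hh, hh'⟩
    exact ⟨⟨h, l, hh⟩, ⟨(T.mem_fix C _).2 hh', (T.mem_MK C l _).2 hh⟩, rfl⟩

theorem trdeg (l : ℕ) (t y : T.K C) (ht : t ∈ T.MK C l) (ht' : t ∉ fix (T.gK C))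
    (hy : y ∈ T.MK C l) :
    y ∈ acl (((fix (T.gK C) : Set (T.K C)) ∩ (T.MK C l : Set (T.K C))) ∪ {t}) := by
  rw [← acl_map_iff (T.K C).subtype, Set.image_union, T.image_fix_inter C, Set.image_singleton]
  rw [T.mem_fix C] at ht'
  exact C.MF.inter _ _ _ ((T.mem_MK C l t).1 ht) ht' ((T.mem_MK C l y).1 hy)

theorem freeK (l : ℕ) (t : T.K C) (ht : t ∈ T.MK C l) (ht' : t ∉ fix (T.gK C)) :
    T.gK C (l + 1) t ∉ acl (T.MK C l : Set (T.K C)) := by
  rw [← acl_map_iff (T.K C).subtype, T.image_MK C]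
  rw [T.mem_fix C] at ht'
  exact (T.step l).free _ ((T.mem_MK C l t).1 ht) ht'

omit [Algebra ℂ E] in
/-- leading coefficients -/
theorem coeff_ne {h : LaurentSeries E} {n : ℤ} (hv : vH h = (n : WithTop ℤ)) :
    h.coeff n ≠ 0 := by
  have h0 : h ≠ 0 := by
    rintro rfl
    rw [AddValuation.map_zero] at hv
    exact absurd hv (by simp)
  have h1 : vH h = h.order := HahnSeries.addVal_apply_of_ne h0
  have h2 : h.order = n := by
    have := h1.symm.trans hv
    exact_mod_cast this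
  rw [← h2]
  exact HahnSeries.coeff_order_eq_zero.not.2 h0

omit [Algebra ℂ E] in
theorem coeff_of_lt {h : LaurentSeries E} {n : ℤ} (hv : (n : WithTop ℤ) < vH h) :
    h.coeff n = 0 := by
  by_contra hn
  exact absurd (HahnSeries.addVal_le_of_coeff_ne_zero hn) (not_le.2 hv)

omit [Algebra ℂ E] in
/-- the leading coefficient of a product -/
theorem coeff_mul_lead {a b : LaurentSeries E} {m n : ℤ} (ha : (m : WithTop ℤ) ≤ vH a)
    (hb : (n : WithTop ℤ) ≤ vH b) : (a * b).coeff (m + n) = a.coeff m * b.coeff n := by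
  rw [HahnSeries.coeff_mul]
  rw [Finset.sum_eq_single (m, n)]
  · rintro ⟨i, j⟩ hij hne
    simp only [Finset.mem_antidiagonal] at hij
    obtain ⟨hi, hj, hs⟩ := hij
    have hi' : m ≤ i := by
      have := (ha.trans (HahnSeries.addVal_le_of_coeff_ne_zero hi))
      exact_mod_cast this
    have hj' : n ≤ j := by
      have := (hb.trans (HahnSeries.addVal_le_of_coeff_ne_zero hj))
      exact_mod_cast this
    exfalso
    apply hne
    have : i = m := by omega
    have : j = n := by omega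
    simp_all
  · intro h
    simp only [Finset.mem_antidiagonal, HahnSeries.mem_support, not_and, and_true] at h
    by_cases h1 : a.coeff m = 0
    · simp [h1]
    · have : b.coeff n = 0 := by
        by_contra h2
        exact h h1 h2
      simp [this]

theorem nsqK (κ : T.K C) (n : ℤ) (hn : Odd n) (hv : T.vK C κ = (n : WithTop ℤ)) (l₀ : ℕ) :
    ∃ l, l₀ ≤ l ∧ ∀ s : T.K C, T.vK C s = 0 →
      ¬ (T.vK C κ < T.vK C (T.gK C l κ - s ^ 2 * κ)) := by
  rw [T.vK_apply C] at hv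
  obtain ⟨m₁, hm₁⟩ := κ.2
  have heps : eps κ = κ := hm₁.1
  set k : E := (κ : LaurentSeries E).coeff n with hk
  have hk0 : k ≠ 0 := coeff_ne hv
  have hεk : R.ε k = -k := by
    have h1 := C.he κ n
    rw [heps, hn.neg_one_zpow, ← hk] at h1
    linear_combination h1
  obtain ⟨m, hm⟩ := R.nsq k hk0 hεk
  refine ⟨max l₀ m, le_max_left _ _, ?_⟩
  intro s hs hlt
  rw [T.vK_apply C] at hs
  rw [T.vK_apply C, T.vK_apply C, hv] at hlt
  have h1 := coeff_of_lt hlt
  have h2 : (((T.gK C (max l₀ m) κ - s ^ 2 * κ : T.K C)) : LaurentSeries E) =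
      (T.x (max l₀ m)).g κ - (s : LaurentSeries E) ^ 2 * κ := rfl
  rw [h2, HahnSeries.coeff_sub, (T.x (max l₀ m)).adm.res _ n (le_of_eq hv.symm)] at h1
  have h3 : ((s : LaurentSeries E) ^ 2 * (κ : LaurentSeries E)).coeff n =
      (s : LaurentSeries E).coeff 0 ^ 2 * k := by
    have e1 : ((s : LaurentSeries E) ^ 2).coeff 0 = (s : LaurentSeries E).coeff 0 ^ 2 := by
      have := coeff_mul_lead (a := (s : LaurentSeries E)) (b := (s : LaurentSeries E))
        (m := 0) (n := 0) (le_of_eq hs.symm) (le_of_eq hs.symm)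
      rw [add_zero] at this
      rw [pow_two, this, pow_two]
    have hs2 : vH ((s : LaurentSeries E) ^ 2) = 0 := by
      rw [pow_two, AddValuation.map_mul, hs, add_zero]
    have := coeff_mul_lead (a := (s : LaurentSeries E) ^ 2) (b := (κ : LaurentSeries E))
      (m := 0) (n := n) (le_of_eq hs2.symm) (le_of_eq hv.symm)
    rw [zero_add] at this
    rw [this, e1]
  rw [h3, ← hk] at h1
  refine hm (max l₀ m) (le_max_right _ _) ((s : LaurentSeries E).coeff 0 * k) ?_
  linear_combination k * h1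

/-- image in `H` of a subfield of `K` -/
theorem rigK (L : Subfield (T.K C)) (hL : fix (T.gK C) ≤ L) (l₀ : ℕ)
    (hz : ∀ l, l₀ ≤ l → ∃ z ∈ L, z ∈ T.MK C l ∧ T.gK C l z = z ∧ z ∉ fix (T.gK C) ∧
      T.gK C (l + 1) z ∈ L) (κ : T.K C) (hκ : T.gK C l₀ κ = κ) : κ ∈ L := by
  set L' : Subfield (LaurentSeries E) := L.map (T.K C).subtype with hL'
  have memL' : ∀ k : T.K C, (k : LaurentSeries E) ∈ L' ↔ k ∈ L := by
    intro k
    constructor
    · rintro ⟨k', hk', h⟩
      have : k' = k := Subtype.ext h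
      rwa [← this]
    · intro hk
      exact ⟨k, hk, rfl⟩
  have hKs : ∀ l h, h ∈ Mf R eps (T.x l).P → h ∈ Ks → h ∈ L' := by
    intro l h hh hh'
    exact (memL' ⟨h, l, hh⟩).2 (hL ((T.mem_fix C _).2 hh'))
  have hex : ∀ l, l₀ ≤ l → ∃ z', z' ∈ L' ∧ z' ∈ Mf R eps (T.x l).P ∧ z' ∉ Ks ∧
      (T.x (l + 1)).g z' ∈ L' := by
    intro l hl
    obtain ⟨z, hz1, hz2, hz3, hz4, hz5⟩ := hz l hl
    refine ⟨z, (memL' z).2 hz1, (T.mem_MK C l z).1 hz2, ?_, ?_⟩
    · rwa [T.mem_fix C] at hz4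
    · exact (memL' _).2 hz5
  -- stage `l₀`
  have h0 := ((T.step l₀).rig L' (hKs (l₀ + 1)) (hex l₀ le_rfl)).1
  -- a stage treating `κ`
  obtain ⟨l₁, hl₁⟩ := κ.2
  obtain ⟨l, hl, hel⟩ := T.all l₁ _ hl₁ l₀
  have h1 := ((T.step l).rig L' (hKs (l + 1)) (hex l hl)).2 (l - l₀) (Nat.sub_le _ _)
  have hg : ((T.x l).g)^[2 ^ (l - l₀)] = (T.x l₀).g := by
    funext h
    exact T.g_iter' hl h
  rw [hel, hg, Nat.sub_sub_self hl] at h1
  have h2 := h1 (congrArg Subtype.val hκ)
  have h3 : (κ : LaurentSeries E) ∈ L' := by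
    refine (Subfield.closure_le (t := L')).2 ?_ h2
    rintro y (hy | hy)
    · exact hy
    · rw [Set.mem_singleton_iff] at hy
      rw [hy]
      exact h0
  exact (memL' κ).1 h3

theorem merK (z : T.K C) (hz : z ∉ fix (T.gK C)) : ∃ l, IsIntegral
    (Subring.closure ((fix (T.gK C) : Set (T.K C)) ∪ {y | ∃ i, y = (T.gK C l)^[i] z})) z⁻¹ := by
  obtain ⟨l₁, hl₁⟩ := z.2
  obtain ⟨l, hl, hel⟩ := T.all l₁ _ hl₁ 0
  rw [T.mem_fix C] at hz
  have h1 := (T.step l).mer (by rw [hel]; exact hz)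
  rw [hel] at h1
  refine ⟨l + 1, ?_⟩
  rw [← isIntegral_map_iff (T.K C).subtype]
  have hsub : Subring.closure ((Mf R eps (T.x (l + 1)).P ∩ Ks) ∪
      {y | ∃ i, y = (T.x (l + 1)).g^[i] z}) ≤ Subring.closure ((T.K C).subtype ''
      ((fix (T.gK C) : Set (T.K C)) ∪ {y | ∃ i, y = (T.gK C (l + 1))^[i] z})) := by
    apply Subring.closure_mono
    rintro y (⟨hy, hy'⟩ | ⟨i, rfl⟩)
    · exact ⟨⟨y, l + 1, hy⟩, Or.inl ((T.mem_fix C _).2 hy'), rfl⟩
    · refine ⟨(T.gK C (l + 1))^[i] z, Or.inr ⟨i, rfl⟩, ?_⟩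
      exact T.coe_gK_iter C (l + 1) i z
  have h2 : (T.K C).subtype z⁻¹ = ((z : LaurentSeries E))⁻¹ := rfl
  rw [h2]
  exact h1.map_of_comp_eq (Subring.inclusion hsub) (RingHom.id _) rfl

theorem v_twoK : T.vK C 2 = 0 := by
  have hc : CharZero E := charZero_of_injective_algebraMap (algebraMap ℂ E).injective
  rw [T.vK_apply C]
  have h1 : (((2 : T.K C)) : LaurentSeries E) = HahnSeries.single (0 : ℤ) (2 : E) := by
    show (2 : LaurentSeries E) = HahnSeries.C (2 : E)
    rw [map_ofNat]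
  rw [h1]
  show HahnSeries.orderTop _ = _
  exact HahnSeries.orderTop_single two_ne_zero

/-- the data -/
def data : Data (T.K C) where
  toCore := T.core C
  v_two := T.v_twoK C
  M := T.MK C
  M_mono := by
    intro l m h k hk
    exact (T.mem_MK C m k).2 (T.mono C h ((T.mem_MK C l k).1 hk))
  M_top k := by
    obtain ⟨l, hl⟩ := k.2
    exact ⟨l, (T.mem_MK C l k).2 hl⟩
  g_M l k hk := (T.mem_MK C l _).2 ((C.SF l (T.x l)).g_Mf _ ((T.mem_MK C l k).1 hk))
  a_mem l := (T.mem_MK C (l + 1) _).2 (T.step l).α_mem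
  c_mem := (T.mem_MK C 0 _).2 (T.x 0).c_mem
  exists_M := T.exists_M C
  acl_F := T.acl_F C
  trdeg := T.trdeg C
  free := T.freeK C
  nsq := T.nsqK C
  rig := T.rigK C
  mer := T.merK C

end Tower

/-- the initial state -/
def initSt (AF : AclFacts) (KF : KsFacts E R) (he : IsEps R eps) (hP : GoodP R P₀) :
    St R eps P₀ 0 where
  P := P₀
  cnt := hP.1
  sub := subset_rfl
  g := RingEquiv.refl _
  adm := by
    refine ⟨rfl, fun _ => rfl, fun _ => rfl, ?_⟩
    intro h n _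
    exact (R.σ_zero _).symm
  ord h := rfl
  comm h := rfl
  gx := AF.sub _ _ (Or.inr (Or.inr rfl))
  c := sH * eH (R.κ 0)
  c_mem := by
    constructor
    · rw [map_mul, KF.eps_s _ he]
      have : eps (eH (R.κ 0)) = - eH (R.κ 0) := by
        ext n
        rw [he, HahnSeries.coeff_neg]
        by_cases hn : n = 0
        · subst hn
          simp [eH, R.ε_κ]
        · simp [eH, HahnSeries.C, HahnSeries.coeff_single_of_ne hn]
      rw [this]
      ring
    · obtain ⟨F, hF⟩ := AF.field _ (gens R P₀)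
      have h1 : sH ∈ acl (gens R P₀) := AF.sub _ _ (Or.inr (Or.inl rfl))
      have h2 : eH (R.κ 0) ∈ acl (gens R P₀) := by
        have := (acl_map_iff (eH (E := E)) _ _).2 (hP.2 0).1
        refine AF.mono _ _ _ ?_ this
        rintro _ ⟨y, (⟨c, hc, rfl⟩ | rfl), rfl⟩
        · exact Or.inl ⟨c, hc, rfl⟩
        · exact Or.inr (Or.inr rfl)
      rw [← hF] at h1 h2 ⊢
      exact F.mul_mem h1 h2
  g_c := rfl
  v_c := by
    rw [AddValuation.map_mul]
    have h1 : vH (sH (E := E)) = 1 := by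
      show HahnSeries.orderTop _ = _
      rw [sH, HahnSeries.orderTop_single one_ne_zero]
      rfl
    have h2 : vH (eH (R.κ 0)) = 0 := by
      show HahnSeries.orderTop _ = _
      exact HahnSeries.orderTop_single (R.κ_ne 0)
    rw [h1, h2, add_zero]
  res_c := by
    show (HahnSeries.single (1 : ℤ) (1 : E) * HahnSeries.single (0 : ℤ) (R.κ 0)).coeff 1 = _
    rw [HahnSeries.single_mul_single]
    simp

/-- PIECE F15. -/
theorem p_data : S_data := by
  rintro AF hKs hgood heps hMf hSt hbook hstep ⟨E, _, _, ⟨R⟩⟩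
  have KF := hKs AF E R
  obtain ⟨P₀, hP⟩ := hgood AF E R
  obtain ⟨eps, he⟩ := heps E R
  have MF := hMf AF E R KF eps he
  have C : Ctx R eps P₀ :=
    ⟨AF, KF, he, MF, fun l S => hSt AF E R KF eps he MF P₀ l S⟩
  obtain ⟨x, e, hx0, hemem, hmono, hT, hall⟩ := hbook (fun l => St R eps P₀ l)
    (LaurentSeries E) (fun l S => Mf R eps S.P) (fun l S => MF.countable _ S.cnt)
    (fun l S => ⟨_, MF.x_mem _⟩) (fun l S e S' => ∃ α, Step S e S' α)
    (by
      intro l S e he'
      obtain ⟨S', α, hs⟩ := hstep E R KF eps he P₀ hP l S e he'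
      exact ⟨S', ⟨α, hs⟩, MF.mono _ _ hs.P_sub⟩)
    (initSt AF KF he hP)
  choose α hα using hT
  let T : Tower R eps P₀ := ⟨x, e, α, hα, hemem, hall⟩
  exact ⟨T.K C, inferInstance, inferInstance, ⟨T.data C⟩⟩

end Pool.Agent.Run7.h639.MP57
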